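import Mathlib
import Pool.Agent.H55.G.R_seed8.H499R2.HL.E
import Pool.Agent.H33.G.R_seed8.H499R2.NDCol

set_option autoImplicit false

/-! The limit law of the scaled total stopping times of the `3x+1` function. -/

namespace Pool.Agent.Results.MP_f7abf1_nt.NormalLaw

open Filter Topology

/-- the `3x+1` function -/
def T (n : ℕ) : ℕ := if n % 2 = 0 then n / 2 else (3 * n + 1) / 2

/-- `t` is the total stopping time of `n` -/
def IsTotalStoppingTime (n t : ℕ) : Prop := T^[t] n = 1 ∧ ∀ j < t, T^[j] n ≠ 1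

/-- the number of odd terms among `n, T n, ..., T^(k-1) n` -/
def odds (k n : ℕ) : ℕ := ((Finset.range k).filter fun i => T^[i] n % 2 = 1).card

/-- the positive integers with the property `P` have the natural density `δ` -/
def HasDensity (P : ℕ → Prop) (δ : ℝ) : Prop :=
  Tendsto (fun N : ℕ => ({n : ℕ | 1 ≤ n ∧ n ≤ N ∧ P n}.ncard : ℝ) / N) atTop (𝓝 δ)

/-- `(½ log (4/3))⁻¹ + x * log 3 * √(2 / ((log (4/3))^3 log n))` -/
noncomputable def bound (x : ℝ) (n : ℕ) : ℝ :=
  (1 / 2 * Real.log (4 / 3))⁻¹ + x * (Real.log 3 * Real.sqrt (2 / (Real.log (4 / 3) ^ 3 * Real.log n)))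

/-- The distribution function of the standard normal law. -/
noncomputable def Phi (x : ℝ) : ℝ :=
  ProbabilityTheory.cdf (ProbabilityTheory.gaussianReal 0 1) x

theorem bound_iff (x : ℝ) {n : ℕ} (hn : 1 < n) (t : ℕ) :
    (t : ℝ) / Real.log n ≤ bound x n ↔ (t : ℝ) ≤ 2 / Real.log (4 / 3) * Real.log n
      + x * (Real.log 3 * Real.sqrt (2 * Real.log n / Real.log (4 / 3) ^ 3)) := by
  have hL : 0 < Real.log n := Real.log_pos (by exact_mod_cast hn)
  have hnu : 0 < Real.log (4 / 3) := Real.log_pos (by norm_num)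
  rw [div_le_iff₀ hL]
  have e : bound x n * Real.log n = 2 / Real.log (4 / 3) * Real.log n
      + x * (Real.log 3 * Real.sqrt (2 * Real.log n / Real.log (4 / 3) ^ 3)) := by
    unfold bound
    have h1 : Real.sqrt (2 * Real.log n / Real.log (4 / 3) ^ 3)
        = Real.sqrt (2 / (Real.log (4 / 3) ^ 3 * Real.log n)) * Real.log n := by
      have h2 : 2 * Real.log n / Real.log (4 / 3) ^ 3
          = 2 / (Real.log (4 / 3) ^ 3 * Real.log n) * Real.log n ^ 2 := by field_simp
      rw [h2, Real.sqrt_mul (by positivity), Real.sqrt_sq hL.le]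
    rw [h1, add_mul]
    congr 1
    · field_simp
    · ring
  rw [e]

/-- THE LIMIT LAW OF THE SCALED TOTAL STOPPING TIMES. The integers with finite total stopping time
have a positive natural density `δ`, equal to `1` iff all are of this kind. For all `m, Q ≥ 1`, `a`,
`b`, `r` and every real `x`, the `n ≡ r` modulo `Q` with scaled total stopping time at most
`bound x n`, total stopping time `≡ a` and number of odd terms before reaching `1` `≡ b` modulo `m`
have density `δ * Phi x / (m ^ 2 * Q)`. -/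
theorem result : ∃ δ : ℝ, 0 < δ ∧ δ ≤ 1 ∧ (δ = 1 ↔ ∀ n : ℕ, 1 ≤ n → ∃ k, T^[k] n = 1) ∧
    HasDensity (fun n => ∃ k, T^[k] n = 1) δ ∧
    ∀ (m : ℕ) (a b : ℤ), 1 ≤ m → ∀ (Q r : ℕ), 1 ≤ Q →
      ∀ x : ℝ, HasDensity (fun n => n % Q = r % Q ∧
        ∃ t : ℕ, (t : ℝ) / Real.log n ≤ bound x n ∧ IsTotalStoppingTime n t ∧
          (t : ℤ) ≡ a [ZMOD m] ∧ (odds t n : ℤ) ≡ b [ZMOD m]) (δ * Phi x / (m ^ 2 * Q)) := by
  obtain ⟨δ, h0, h1, h2, h3, h4⟩ := Pool.Agent.H499R2.HL.law_class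
  refine ⟨δ, h0, h1, h2, h3, fun m a b hm Q r hQ x => ?_⟩
  have h5 := h4 m a b hm Q r hQ x
  have e : δ / (m : ℝ) ^ 2 * Pool.Agent.H499R2.ND.Phi x / Q = δ * Phi x / (m ^ 2 * Q) := by
    unfold Phi
    rw [← Pool.Agent.H499R2.ND.phi_cdf]
    field_simp
  rw [e] at h5
  refine Pool.Agent.H499R2.ND.dn_congr h5 (Pool.Agent.H499R2.ND.zd_bdd 1) fun n hn hE => ?_
  have hn1 : 1 < n := by
    rcases Nat.lt_or_ge 1 n with h | h
    · exact h
    · exact absurd (show (n : ℝ) ≤ 1 by exact_mod_cast h) hE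
  refine and_congr_right fun _ => exists_congr fun t => ?_
  rw [bound_iff x hn1 t]
  exact Iff.rfl

end Pool.Agent.Results.MP_f7abf1_nt.NormalLaw
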